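import Pool.Agent.Work.MP_b29d7f_ns.Interface3

set_option autoImplicit false

open Finset Filter Topology MeasureTheory

namespace Pool.NS

namespace COMP1_

open Data

variable {R : Type} [CommRing R] {P : Data R} (S : Sq P)

/-- the kernel at scale `M` without the logarithm of `n` -/
noncomputable def q (l M : ℕ) (x y : R) : ℝ :=
  ∑ v, (P.e v : ℝ) *
      (Real.log (‖S.X l x v - S.X l y v‖ ^ 2 + Real.exp (-(M : ℝ)) ^ 2) / 2)
    + ∑ t, P.lq t * ((P.cap t (S.j l t - M) (x - y) - S.j l t : ℤ) : ℝ)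

lemma rho_pos (l M : ℕ) (v : P.Ω) : 0 < Real.exp (-(M : ℝ)) * S.s l v :=
  mul_pos (Real.exp_pos _) (S.s_pos l v)

lemma kap_eq (l M : ℕ) (x y : R) :
    P.kap (fun v => Real.exp (-(M : ℝ)) * S.s l v) (fun t => S.j l t - M) (x - y)
      = Real.log (S.n l) + q S l M x y :=
  (stmt_KAPS R P S l M).2 x y

lemma q_symm (l M : ℕ) (x y : R) : q S l M x y = q S l M y x := by
  have h1 := kap_eq S l M x y
  have h2 := kap_eq S l M y x
  rw [S.geo.kap_symm] at h1
  linarith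

lemma log_aux {d a b ρ : ℝ} (hd : 0 ≤ d) (ha : 0 ≤ a) (hb : 0 ≤ b) (hdab : d ≤ a + b)
    (hρ : 0 < ρ) (hρ1 : ρ ≤ 1) :
    Real.log (d ^ 2 + ρ ^ 2) / 2 ≤ 2 * Real.log 2 + Real.posLog a + Real.posLog b := by
  have h1 : (1 : ℝ) ≤ max 1 a := le_max_left _ _
  have h2 : (1 : ℝ) ≤ max 1 b := le_max_left _ _
  have h3 : a ≤ max 1 a := le_max_right _ _
  have h4 : b ≤ max 1 b := le_max_right _ _
  have key : d ^ 2 + ρ ^ 2 ≤ (2 * 2 * (max 1 a) * (max 1 b)) ^ 2 := by
    have h5 : d ^ 2 + ρ ^ 2 ≤ (1 + a + b) ^ 2 := by nlinarith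
    have h6 : 1 + a + b ≤ 2 * 2 * (max 1 a) * (max 1 b) := by nlinarith
    exact le_trans h5 (pow_le_pow_left₀ (by positivity) h6 2)
  have h7 : Real.log (d ^ 2 + ρ ^ 2) ≤ Real.log ((2 * 2 * (max 1 a) * (max 1 b)) ^ 2) :=
    Real.log_le_log (by positivity) key
  rw [Real.log_pow, Real.log_mul (by positivity) (by positivity),
    Real.log_mul (by norm_num) (by positivity), Real.log_mul (by norm_num) (by norm_num)] at h7
  rw [Real.posLog_eq_log_max_one ha, Real.posLog_eq_log_max_one hb]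
  push_cast at h7
  linarith

lemma log_lip {a b δ ρ : ℝ} (ha : 0 ≤ a) (hδ : 0 ≤ δ) (hρ : 0 < ρ)
    (h : a ≤ b + δ) :
    Real.log (a ^ 2 + ρ ^ 2) / 2 ≤ Real.log (b ^ 2 + ρ ^ 2) / 2 + δ / ρ := by
  have h1 : a ^ 2 + ρ ^ 2 ≤ (b ^ 2 + ρ ^ 2) * (1 + δ / ρ) ^ 2 := by
    have h2 : a ^ 2 ≤ (b + δ) ^ 2 := pow_le_pow_left₀ ha h 2
    set u := δ / ρ with hu
    have hu0 : 0 ≤ u := by positivity
    have hδ' : δ = u * ρ := by rw [hu]; field_simp
    have h3 : 0 ≤ b ^ 2 * (2 * u + u ^ 2) + ρ ^ 2 * (2 * u) - 2 * b * (u * ρ) := by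
      have : b ^ 2 * (2 * u + u ^ 2) + ρ ^ 2 * (2 * u) - 2 * b * (u * ρ)
        = u * ((b - ρ) ^ 2 + b ^ 2 + ρ ^ 2) + b ^ 2 * u ^ 2 := by ring
      rw [this]; positivity
    rw [hδ'] at h2
    nlinarith
  have h2 : Real.log (a ^ 2 + ρ ^ 2) ≤ Real.log ((b ^ 2 + ρ ^ 2) * (1 + δ / ρ) ^ 2) :=
    Real.log_le_log (by positivity) h1
  have h3 : 0 ≤ δ / ρ := by positivity
  rw [Real.log_mul (by positivity) (by positivity), Real.log_pow] at h2
  have h4 : Real.log (1 + δ / ρ) ≤ δ / ρ := by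
    have := Real.log_le_sub_one_of_pos (show 0 < 1 + δ / ρ by positivity)
    linarith
  push_cast at h2
  linarith

open scoped Classical in
/-- the contribution of `t` to the excess -/
noncomputable def exT (l : ℕ) (t : P.T) (x : R) : ℤ := if x = 0 then 0 else max (P.lev t x - S.j l t) 0

lemma exT_nonneg (l : ℕ) (t : P.T) (x : R) : 0 ≤ exT S l t x := by
  unfold exT; split_ifs
  · exact le_rfl
  · exact le_max_right _ _

lemma ex_eq (l : ℕ) (x : R) :
    S.ex l x = ∑ v, (P.e v : ℝ) * Real.posLog ‖S.X l x v‖ + ∑ t, P.lq t * (exT S l t x : ℝ) := by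
  classical
  unfold Sq.ex Data.exc
  congr 1
  · apply Finset.sum_congr rfl
    intro v _
    rw [S.norm_X]
  · apply Finset.sum_congr rfl
    intro t _
    unfold exT
    congr 1
    split_ifs
    · simp
    · rfl

lemma cap_le (l M : ℕ) (t : P.T) (x y : R) :
    P.cap t (S.j l t - M) (x - y) - S.j l t ≤ exT S l t x + exT S l t y := by
  classical
  have hx := exT_nonneg S l t x
  have hy := exT_nonneg S l t y
  by_cases hxy : x - y = 0
  · rw [hxy, cap_zero]
    have : (0 : ℤ) ≤ M := Int.natCast_nonneg M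
    omega
  · unfold cap
    rw [if_neg hxy]
    have hM : (0 : ℤ) ≤ M := Int.natCast_nonneg M
    have key : P.lev t (x - y) - S.j l t ≤ exT S l t x + exT S l t y := by
      by_cases hx0 : x = 0
      · have hy0 : y ≠ 0 := by
          rintro rfl; exact hxy (by rw [hx0, sub_zero])
        rw [hx0, zero_sub, S.geo.lev_neg]
        have : exT S l t y = max (P.lev t y - S.j l t) 0 := by unfold exT; rw [if_neg hy0]
        have h2 := le_max_left (P.lev t y - S.j l t) 0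
        rw [hx0] at hx
        omega
      · by_cases hy0 : y = 0
        · rw [hy0, sub_zero]
          have : exT S l t x = max (P.lev t x - S.j l t) 0 := by unfold exT; rw [if_neg hx0]
          have h2 := le_max_left (P.lev t x - S.j l t) 0
          rw [hy0] at hy
          omega
        · have h1 := S.geo.lev_add t x (-y) hx0 (neg_ne_zero.2 hy0)
            (by rw [← sub_eq_add_neg]; exact hxy)
          rw [← sub_eq_add_neg, S.geo.lev_neg] at h1
          have h2 : exT S l t x = max (P.lev t x - S.j l t) 0 := by unfold exT; rw [if_neg hx0]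
          have h3 : exT S l t y = max (P.lev t y - S.j l t) 0 := by unfold exT; rw [if_neg hy0]
          have h4 := le_max_left (P.lev t x - S.j l t) 0
          have h5 := le_max_left (P.lev t y - S.j l t) 0
          rcases le_max_iff.1 h1 with h6 | h6 <;> omega
    rcases max_choice (P.lev t (x - y)) (S.j l t - M) with h | h <;> rw [h] <;> omega

lemma q_le (l M : ℕ) (x y : R) :
    q S l M x y ≤ 2 * Real.log 2 * ∑ v, (P.e v : ℝ) + S.ex l x + S.ex l y := by
  rw [ex_eq, ex_eq]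
  unfold q
  have h1 : ∑ v, (P.e v : ℝ) *
      (Real.log (‖S.X l x v - S.X l y v‖ ^ 2 + Real.exp (-(M : ℝ)) ^ 2) / 2)
      ≤ 2 * Real.log 2 * ∑ v, (P.e v : ℝ) + ∑ v, (P.e v : ℝ) * Real.posLog ‖S.X l x v‖
        + ∑ v, (P.e v : ℝ) * Real.posLog ‖S.X l y v‖ := by
    rw [Finset.mul_sum, ← Finset.sum_add_distrib, ← Finset.sum_add_distrib]
    apply Finset.sum_le_sum
    intro v _
    have := log_aux (norm_nonneg (S.X l x v - S.X l y v)) (norm_nonneg (S.X l x v))
      (norm_nonneg (S.X l y v)) (norm_sub_le _ _) (Real.exp_pos (-(M : ℝ)))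
      (Real.exp_le_one_iff.2 (by simp))
    have h2 := mul_le_mul_of_nonneg_left this (Nat.cast_nonneg (α := ℝ) (P.e v))
    linarith
  have h2 : ∑ t, P.lq t * ((P.cap t (S.j l t - M) (x - y) - S.j l t : ℤ) : ℝ)
      ≤ ∑ t, P.lq t * (exT S l t x : ℝ) + ∑ t, P.lq t * (exT S l t y : ℝ) := by
    rw [← Finset.sum_add_distrib]
    apply Finset.sum_le_sum
    intro t _
    have h3 : ((P.cap t (S.j l t - M) (x - y) - S.j l t : ℤ) : ℝ)
        ≤ ((exT S l t x + exT S l t y : ℤ) : ℝ) := by exact_mod_cast cap_le S l M t x y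
    have h4 := mul_le_mul_of_nonneg_left h3 (S.good.lq_pos t).le
    push_cast at h4 ⊢
    linarith
  linarith

lemma ex_add_le (l : ℕ) (x ω : R) (W' : ℝ) (h1 : ∀ v, ‖S.X l ω v‖ ≤ W')
    (h2 : ∀ t, P.NearT t (S.j l t) ω 0) :
    S.ex l (x + ω) ≤ S.ex l x + (Real.log 2 + Real.posLog W') * ∑ v, (P.e v : ℝ) := by
  classical
  rw [ex_eq, ex_eq]
  have h3 : ∑ v, (P.e v : ℝ) * Real.posLog ‖S.X l (x + ω) v‖
      ≤ ∑ v, (P.e v : ℝ) * Real.posLog ‖S.X l x v‖
        + (Real.log 2 + Real.posLog W') * ∑ v, (P.e v : ℝ) := by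
    rw [Finset.mul_sum, ← Finset.sum_add_distrib]
    apply Finset.sum_le_sum
    intro v _
    have h4 : Real.posLog ‖S.X l (x + ω) v‖ ≤ Real.log 2 + Real.posLog ‖S.X l x v‖
        + Real.posLog W' := by
      rw [S.X_add]
      calc Real.posLog ‖S.X l x v + S.X l ω v‖
          ≤ Real.posLog (‖S.X l x v‖ + ‖S.X l ω v‖) :=
            Real.posLog_le_posLog (norm_nonneg _) (norm_add_le _ _)
        _ ≤ Real.log 2 + Real.posLog ‖S.X l x v‖ + Real.posLog ‖S.X l ω v‖ := Real.posLog_add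
        _ ≤ _ := by
            have := Real.posLog_le_posLog (norm_nonneg (S.X l ω v)) (h1 v)
            linarith
    have h5 := mul_le_mul_of_nonneg_left h4 (Nat.cast_nonneg (α := ℝ) (P.e v))
    linarith
  have h4 : ∑ t, P.lq t * (exT S l t (x + ω) : ℝ) ≤ ∑ t, P.lq t * (exT S l t x : ℝ) := by
    apply Finset.sum_le_sum
    intro t _
    apply mul_le_mul_of_nonneg_left _ (S.good.lq_pos t).le
    have h5 : exT S l t (x + ω) ≤ exT S l t x := by
      by_cases hω : ω = 0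
      · rw [hω, add_zero]
      have h6 : P.lev t ω ≤ S.j l t := by
        have := (h2 t).resolve_left hω
        rwa [sub_zero] at this
      by_cases hxω : x + ω = 0
      · rw [hxω]
        have : exT S l t 0 = 0 := by unfold exT; simp
        rw [this]; exact exT_nonneg S l t x
      by_cases hx : x = 0
      · rw [hx, zero_add]
        unfold exT
        rw [if_neg hω, if_pos rfl, max_le_iff]
        exact ⟨by omega, le_rfl⟩
      · have h7 := S.geo.lev_add t x ω hx hω hxω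
        unfold exT
        rw [if_neg hxω, if_neg hx]
        rw [max_le_iff]
        refine ⟨?_, le_max_right _ _⟩
        rcases le_max_iff.1 h7 with h8 | h8
        · exact le_trans (by omega) (le_max_left _ _)
        · exact le_trans (by omega) (le_max_right _ _)
    exact_mod_cast h5
  linarith

lemma ex_box (l K : ℕ) (x : R) (h1 : ∀ v, ‖P.em x v‖ ≤ Real.exp K * S.s l v)
    (h2 : ∀ t, P.NearT t (S.j l t + K) x 0) : S.ex l x ≤ K * P.Nt := by
  classical
  rw [ex_eq]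
  unfold Data.Nt
  rw [mul_add, Finset.mul_sum, Finset.mul_sum]
  apply add_le_add
  · apply Finset.sum_le_sum
    intro v _
    have h3 : ‖S.X l x v‖ ≤ Real.exp K := by
      rw [S.norm_X, div_le_iff₀ (S.s_pos l v)]; exact h1 v
    have h4 : Real.posLog ‖S.X l x v‖ ≤ K := by
      have := Real.posLog_le_posLog (norm_nonneg (S.X l x v)) h3
      rw [Real.posLog_eq_log_max_one (Real.exp_pos _).le, max_eq_right (Real.one_le_exp (by simp)),
        Real.log_exp] at this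
      exact this
    have := mul_le_mul_of_nonneg_left h4 (Nat.cast_nonneg (α := ℝ) (P.e v))
    linarith
  · apply Finset.sum_le_sum
    intro t _
    have h3 : exT S l t x ≤ K := by
      unfold exT
      split_ifs with hx
      · exact Int.natCast_nonneg K
      · rw [max_le_iff]
        have := (h2 t).resolve_left hx
        rw [sub_zero] at this
        exact ⟨by omega, Int.natCast_nonneg K⟩
    have h4 : (exT S l t x : ℝ) ≤ K := by exact_mod_cast h3
    have := mul_le_mul_of_nonneg_left h4 (S.good.lq_pos t).le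
    linarith


/-- lower bound for the sum of `q` over `A` -/
lemma sum_q_ge {C : ℝ} (hC : ∀ l M : ℕ, M ≤ P.Mx (S.A l).card →
    (∀ (v : P.Ω) (ξ : E (P.e v)), 3 / 4 * Real.posLog ‖ξ‖ - C ≤
      (S.n l)⁻¹ * ∑ b ∈ S.A l, Real.log (‖ξ - S.X l b v‖ ^ 2 + Real.exp (-(M : ℝ)) ^ 2) / 2) ∧
    (∀ (t : P.T) (x : R), x ≠ 0 → 3 / 4 * ((max (P.lev t x - S.j l t) 0 : ℤ) : ℝ) - C ≤
      (S.n l)⁻¹ * ∑ b ∈ S.A l, ((P.cap t (S.j l t - M) (x - b) - S.j l t : ℤ) : ℝ)) ∧
    (∀ t : P.T, -C ≤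
      (S.n l)⁻¹ * ∑ b ∈ S.A l, ((P.cap t (S.j l t - M) (0 - b) - S.j l t : ℤ) : ℝ)))
    (l M : ℕ) (hM : M ≤ P.Mx (S.A l).card) (x : R) :
    -(C * P.Nt * S.n l) ≤ ∑ y ∈ S.A l, q S l M x y := by
  obtain ⟨h1, h2, h3⟩ := hC l M hM
  have hn := S.n_pos l
  unfold q
  rw [Finset.sum_add_distrib, Finset.sum_comm, Finset.sum_comm (s := S.A l) (t := Finset.univ)]
  have h4 : -(C * (∑ v, (P.e v : ℝ)) * S.n l) ≤ ∑ v, ∑ y ∈ S.A l, (P.e v : ℝ) *
      (Real.log (‖S.X l x v - S.X l y v‖ ^ 2 + Real.exp (-(M : ℝ)) ^ 2) / 2) := by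
    have : -(C * (∑ v, (P.e v : ℝ)) * S.n l) = ∑ v, (P.e v : ℝ) * (-(C * S.n l)) := by
      rw [← Finset.sum_mul]; ring
    rw [this]
    apply Finset.sum_le_sum
    intro v _
    rw [← Finset.mul_sum]
    apply mul_le_mul_of_nonneg_left _ (Nat.cast_nonneg _)
    have h5 := h1 v (S.X l x v)
    have h6 : 0 ≤ Real.posLog ‖S.X l x v‖ := Real.posLog_nonneg
    have h7 : -C ≤ (S.n l)⁻¹ * ∑ b ∈ S.A l,
        Real.log (‖S.X l x v - S.X l b v‖ ^ 2 + Real.exp (-(M : ℝ)) ^ 2) / 2 := by linarith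
    rw [inv_mul_eq_div, le_div_iff₀ hn] at h7
    linarith
  have h5 : -(C * (∑ t, P.lq t) * S.n l) ≤ ∑ t, ∑ y ∈ S.A l, P.lq t *
      ((P.cap t (S.j l t - M) (x - y) - S.j l t : ℤ) : ℝ) := by
    have : -(C * (∑ t, P.lq t) * S.n l) = ∑ t, P.lq t * (-(C * S.n l)) := by
      rw [← Finset.sum_mul]; ring
    rw [this]
    apply Finset.sum_le_sum
    intro t _
    rw [← Finset.mul_sum]
    apply mul_le_mul_of_nonneg_left _ (S.good.lq_pos t).le
    have h7 : -C ≤ (S.n l)⁻¹ * ∑ b ∈ S.A l,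
        ((P.cap t (S.j l t - M) (x - b) - S.j l t : ℤ) : ℝ) := by
      by_cases hx : x = 0
      · rw [hx]; exact h3 t
      · have h8 := h2 t x hx
        have h9 : (0 : ℝ) ≤ ((max (P.lev t x - S.j l t) 0 : ℤ) : ℝ) := by
          exact_mod_cast le_max_right _ _
        linarith
    rw [inv_mul_eq_div, le_div_iff₀ hn] at h7
    linarith
  unfold Data.Nt
  linarith

/-- upper bound for the energy of a set with `n` elements -/
lemma En_le (l M : ℕ) (hM : M ≤ P.Mx (S.A l).card) (B : Finset R) (hB : B.card = (S.A l).card) :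
    P.En B ≤ S.n l ^ 2 * Real.log (S.n l) + ∑ x ∈ B, ∑ y ∈ B, q S l M x y := by
  have hdeg : 0 ≤ P.deg (fun v => Real.exp (-(M : ℝ)) * S.s l v) (fun t => S.j l t - M) := by
    rw [(stmt_KAPS R P S l M).1]
    have h1 := S.geo.Mx_mul_le (S.one_le_card l)
    have h2 : (M : ℝ) * P.Nt ≤ P.Mx (S.A l).card * P.Nt :=
      mul_le_mul_of_nonneg_right (by exact_mod_cast hM) S.geo.Nt_pos.le
    unfold Sq.n
    linarith
  have h1 : P.En B ≤ ∑ x ∈ B, ∑ y ∈ B, (Real.log (S.n l) + q S l M x y) := by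
    unfold Data.En
    apply Finset.sum_le_sum
    intro x _
    apply Finset.sum_le_sum
    intro y _
    rw [← kap_eq]
    by_cases hxy : x - y = 0
    · rw [hxy, S.geo.ln_zero, kap_zero (rho_pos S l M)]
      exact hdeg
    · exact S.geo.ln_le_kap _ _ hxy
  refine le_trans h1 (le_of_eq ?_)
  have h2 : (B.card : ℝ) = S.n l := by rw [hB]; rfl
  simp only [Finset.sum_add_distrib, Finset.sum_const, nsmul_eq_mul, h2]
  ring

/-- lower bound for the energy of `A` -/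
lemma En_ge (l M : ℕ) (hM : M ≤ P.Mx (S.A l).card) :
    S.n l ^ 2 * Real.log (S.n l) + ∑ x ∈ S.A l, ∑ y ∈ S.A l, q S l M x y
      - S.n l * Real.log (S.n l) - S.C * Real.exp (-(S.c * M)) * S.n l ^ 2 ≤ P.En (S.A l) := by
  have h1 := S.geo.En_eq (rho_pos S l M) (fun t => S.j l t - M) (S.A l)
  have h2 : ∑ x ∈ S.A l, ∑ y ∈ S.A l,
      P.kap (fun v => Real.exp (-(M : ℝ)) * S.s l v) (fun t => S.j l t - M) (x - y)
      = S.n l ^ 2 * Real.log (S.n l) + ∑ x ∈ S.A l, ∑ y ∈ S.A l, q S l M x y := by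
    have : ∀ x y : R, P.kap (fun v => Real.exp (-(M : ℝ)) * S.s l v) (fun t => S.j l t - M) (x - y)
      = Real.log (S.n l) + q S l M x y := fun x y => kap_eq S l M x y
    simp only [this, Finset.sum_add_distrib, Finset.sum_const, nsmul_eq_mul]
    have h2 : ((S.A l).card : ℝ) = S.n l := rfl
    rw [h2]; ring
  have h3 := (S.frame l).gapM M hM
  rw [(stmt_KAPS R P S l M).1, h2] at h1
  have h4 : ((S.A l).card : ℝ) = S.n l := rfl
  rw [h4] at h1 h3
  have h5 : 0 ≤ S.n l * (M * P.Nt) := by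
    have := S.n_pos l
    have := S.geo.Nt_pos
    positivity
  rw [h1]
  linarith

/-- comparison -/
lemma compare (l M : ℕ) (hM : M ≤ P.Mx (S.A l).card) (B : Finset R)
    (hB : B.card = (S.A l).card) :
    ∑ x ∈ S.A l, ∑ y ∈ S.A l, q S l M x y ≤ ∑ x ∈ B, ∑ y ∈ B, q S l M x y
      + S.n l * Real.log (S.n l) + S.C * Real.exp (-(S.c * M)) * S.n l ^ 2 := by
  have h1 := (S.opt l).min B hB
  have h2 := En_le S l M hM B hB
  have h3 := En_ge S l M hM
  linarith

omit [CommRing R] in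
/-- double sums over disjoint unions -/
lemma sum_sum_union [DecidableEq R] (G Z : Finset R) (hd : Disjoint G Z) (g : R → R → ℝ)
    (hg : ∀ x y, g x y = g y x) :
    ∑ x ∈ G ∪ Z, ∑ y ∈ G ∪ Z, g x y = ∑ x ∈ G, ∑ y ∈ G, g x y + 2 * ∑ x ∈ Z, ∑ y ∈ G, g x y
      + ∑ x ∈ Z, ∑ y ∈ Z, g x y := by
  simp only [Finset.sum_union hd, Finset.sum_add_distrib]
  have : ∑ x ∈ G, ∑ y ∈ Z, g x y = ∑ x ∈ Z, ∑ y ∈ G, g x y := by
    rw [Finset.sum_comm]
    exact Finset.sum_congr rfl fun x _ => Finset.sum_congr rfl fun y _ => hg _ _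
  rw [this]; ring

/-- change of `q` when the pieces are moved -/
lemma q_move (l M : ℕ) (v : P.Ω) (x y ω ω' : R) (w w' : E (P.e v)) (η : ℝ) (hη : 0 ≤ η)
    (h1 : ‖S.X l ω v - w‖ ≤ η) (h1' : ‖S.X l ω' v - w'‖ ≤ η)
    (h2 : ∀ v', v' ≠ v → ‖S.X l ω v'‖ ≤ η) (h2' : ∀ v', v' ≠ v → ‖S.X l ω' v'‖ ≤ η)
    (h3 : ∀ t, P.NearT t (S.j l t - M) ω 0) (h3' : ∀ t, P.NearT t (S.j l t - M) ω' 0) :
    q S l M (x + ω) (y + ω') ≤ q S l M x y
      + (P.e v : ℝ) / 2 * (Real.log (‖(S.X l x v + w) - (S.X l y v + w')‖ ^ 2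
          + Real.exp (-(M : ℝ)) ^ 2)
        - Real.log (‖S.X l x v - S.X l y v‖ ^ 2 + Real.exp (-(M : ℝ)) ^ 2))
      + (∑ v, (P.e v : ℝ)) * (2 * η / Real.exp (-(M : ℝ))) := by
  have hρ := Real.exp_pos (-(M : ℝ))
  unfold q
  have hT : ∑ t, P.lq t * ((P.cap t (S.j l t - M) (x + ω - (y + ω')) - S.j l t : ℤ) : ℝ)
      = ∑ t, P.lq t * ((P.cap t (S.j l t - M) (x - y) - S.j l t : ℤ) : ℝ) := by
    apply Finset.sum_congr rfl
    intro t _
    have h4 : P.NearT t (S.j l t - M) (ω - ω') 0 := S.geo.nearT_sub (h3 t) (h3' t)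
    have h5 : x + ω - (y + ω') = (x - y) + (ω - ω') := by ring
    rw [h5, S.geo.cap_add h4]
  rw [hT]
  have hv : Real.log (‖S.X l (x + ω) v - S.X l (y + ω') v‖ ^ 2 + Real.exp (-(M : ℝ)) ^ 2) / 2
      ≤ Real.log (‖(S.X l x v + w) - (S.X l y v + w')‖ ^ 2 + Real.exp (-(M : ℝ)) ^ 2) / 2
        + 2 * η / Real.exp (-(M : ℝ)) := by
    apply log_lip (norm_nonneg _) (by positivity) hρ
    rw [S.X_add, S.X_add]
    calc ‖S.X l x v + S.X l ω v - (S.X l y v + S.X l ω' v)‖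
        = ‖((S.X l x v + w) - (S.X l y v + w')) + ((S.X l ω v - w) - (S.X l ω' v - w'))‖ := by
          congr 1; abel
      _ ≤ ‖(S.X l x v + w) - (S.X l y v + w')‖ + ‖(S.X l ω v - w) - (S.X l ω' v - w')‖ :=
          norm_add_le _ _
      _ ≤ _ := by
          have := norm_sub_le (S.X l ω v - w) (S.X l ω' v - w')
          linarith
  have hv' : ∀ v', v' ≠ v →
      Real.log (‖S.X l (x + ω) v' - S.X l (y + ω') v'‖ ^ 2 + Real.exp (-(M : ℝ)) ^ 2) / 2
      ≤ Real.log (‖S.X l x v' - S.X l y v'‖ ^ 2 + Real.exp (-(M : ℝ)) ^ 2) / 2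
        + 2 * η / Real.exp (-(M : ℝ)) := by
    intro v' hvv
    apply log_lip (norm_nonneg _) (by positivity) hρ
    rw [S.X_add, S.X_add]
    calc ‖S.X l x v' + S.X l ω v' - (S.X l y v' + S.X l ω' v')‖
        = ‖(S.X l x v' - S.X l y v') + (S.X l ω v' - S.X l ω' v')‖ := by
          congr 1; abel
      _ ≤ ‖S.X l x v' - S.X l y v'‖ + ‖S.X l ω v' - S.X l ω' v'‖ :=
          norm_add_le _ _
      _ ≤ _ := by
          have := norm_sub_le (S.X l ω v') (S.X l ω' v')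
          have := h2 v' hvv
          have := h2' v' hvv
          linarith
  have hsum : ∑ v', (P.e v' : ℝ) *
      (Real.log (‖S.X l (x + ω) v' - S.X l (y + ω') v'‖ ^ 2 + Real.exp (-(M : ℝ)) ^ 2) / 2)
      ≤ ∑ v', ((P.e v' : ℝ) *
      (Real.log (‖S.X l x v' - S.X l y v'‖ ^ 2 + Real.exp (-(M : ℝ)) ^ 2) / 2)
        + (P.e v' : ℝ) * (2 * η / Real.exp (-(M : ℝ)))
        + if v' = v then (P.e v : ℝ) / 2 * (Real.log (‖(S.X l x v + w) - (S.X l y v + w')‖ ^ 2
          + Real.exp (-(M : ℝ)) ^ 2)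
        - Real.log (‖S.X l x v - S.X l y v‖ ^ 2 + Real.exp (-(M : ℝ)) ^ 2)) else 0) := by
    apply Finset.sum_le_sum
    intro v' _
    by_cases hvv : v' = v
    · subst hvv
      rw [if_pos rfl]
      have := mul_le_mul_of_nonneg_left hv (Nat.cast_nonneg (α := ℝ) (P.e v'))
      linarith
    · rw [if_neg hvv]
      have := mul_le_mul_of_nonneg_left (hv' v' hvv) (Nat.cast_nonneg (α := ℝ) (P.e v'))
      linarith
  rw [Finset.sum_add_distrib, Finset.sum_add_distrib, Finset.sum_ite_eq' Finset.univ v,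
    if_pos (Finset.mem_univ v), ← Finset.sum_mul] at hsum
  linarith


lemma deg_scaled (l : ℕ) (κ : ℝ) (hκ : 0 < κ) (r : ℤ) :
    P.deg (fun v => κ * S.s l v) (fun t => S.j l t + r)
      = Real.log (S.n l) + Real.log κ * ∑ v, (P.e v : ℝ) + r * ∑ t, P.lq t := by
  have hdeg := (S.frame l).deg_eq
  unfold Sq.n
  rw [← hdeg]
  unfold Data.deg
  have h1 : ∑ v, (P.e v : ℝ) * Real.log (κ * S.s l v)
      = ∑ v, (P.e v : ℝ) * Real.log (S.s l v) + Real.log κ * ∑ v, (P.e v : ℝ) := by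
    rw [Finset.mul_sum, ← Finset.sum_add_distrib]
    apply Finset.sum_congr rfl
    intro v _
    rw [Real.log_mul hκ.ne' (S.s_pos l v).ne']
    ring
  have h2 : ∑ t, P.lq t * ((S.j l t + r : ℤ) : ℝ)
      = ∑ t, P.lq t * (S.j l t : ℝ) + r * ∑ t, P.lq t := by
    rw [Finset.mul_sum, ← Finset.sum_add_distrib]
    apply Finset.sum_congr rfl
    intro t _
    push_cast
    ring
  rw [h1, h2]; ring

lemma sum_q_le (l M : ℕ) (Z₁ Z₂ : Finset R) :
    ∑ x ∈ Z₁, ∑ y ∈ Z₂, q S l M x y ≤ (Z₁.card : ℝ) * Z₂.card * (2 * Real.log 2 * ∑ v, (P.e v : ℝ))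
      + Z₂.card * ∑ x ∈ Z₁, S.ex l x + Z₁.card * ∑ y ∈ Z₂, S.ex l y := by
  calc ∑ x ∈ Z₁, ∑ y ∈ Z₂, q S l M x y
      ≤ ∑ x ∈ Z₁, ∑ y ∈ Z₂, (2 * Real.log 2 * ∑ v, (P.e v : ℝ) + S.ex l x + S.ex l y) :=
        Finset.sum_le_sum fun x _ => Finset.sum_le_sum fun y _ => q_le S l M x y
    _ = _ := by
        simp only [Finset.sum_add_distrib, Finset.sum_const, nsmul_eq_mul, ← Finset.mul_sum]
        ring

end COMP1_

open COMP1_ Data in
open scoped Classical in
theorem stmt_COMP1 (hLB : Stmt_LB) (_hUB : Stmt_UB) (hTAIL : Stmt_TAIL) (hCNTL : Stmt_CNTL) :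
    Stmt_COMP1 := by
  intro R _ P S W
  obtain ⟨CL, hCL0, hCL⟩ := hLB R P S
  obtain ⟨CT, hCT1, hCT, -⟩ := hTAIL R P S
  obtain ⟨CB, cb, hcb, hCNT⟩ := hCNTL R P S.C₁ S.geo
  have hNt := S.geo.Nt_pos
  obtain ⟨K', hK'⟩ : ∃ K' : ℕ, 2 / cb ≤ Real.exp (K' * P.Nt) := by
    obtain ⟨K', hK'⟩ := exists_nat_ge ((2 / cb) / P.Nt)
    refine ⟨K', ?_⟩
    rw [div_le_iff₀ hNt] at hK'
    have := Real.add_one_le_exp (K' * P.Nt)
    linarith
  set D : ℝ := ∑ v, (P.e v : ℝ) with hD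
  have hD0 : 0 ≤ D := Finset.sum_nonneg fun v _ => Nat.cast_nonneg _
  set C0 : ℝ := 2 * Real.log 2 * D with hC0
  have hl2 : 0 < Real.log 2 := Real.log_pos (by norm_num)
  have hC00 : 0 ≤ C0 := by positivity
  set CW : ℝ := (Real.log 2 + Real.posLog (|W| + 1)) * D with hCW
  have hCW0 : 0 ≤ CW := mul_nonneg (add_nonneg hl2.le Real.posLog_nonneg) hD0
  set CK : ℝ := K' * P.Nt with hCK
  have hCK0 : 0 ≤ CK := by positivity
  set Cb : ℝ := 2 * (CL * P.Nt) + (C0 + 2 * CT) + 2 * (C0 + CK + CT + CW) + (C0 + 2 * CK) with hCb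
  have hCb0 : 0 ≤ Cb := by positivity
  have hSC := S.hC
  refine ⟨2 * Cb + 2 * S.C, by positivity, ?_⟩
  intro v M ι F Q w κ ε hκ hε hw hdisj hsep
  -- the precision
  obtain ⟨η, hη0, hη1, hηκ, hηε⟩ : ∃ η : ℝ, 0 < η ∧ η ≤ 1 ∧ 2 * η < κ ∧
      D * (2 * η / Real.exp (-(M : ℝ))) ≤ ε / 8 := by
    have he := Real.exp_pos (-(M : ℝ))
    refine ⟨min (min 1 (κ / 4)) (ε / 8 * Real.exp (-(M : ℝ)) / (2 * (D + 1))), ?_, ?_, ?_, ?_⟩
    · apply lt_min (lt_min one_pos (by positivity)) (by positivity)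
    · exact le_trans (min_le_left _ _) (min_le_left _ _)
    · have : min (min 1 (κ / 4)) (ε / 8 * Real.exp (-(M : ℝ)) / (2 * (D + 1))) ≤ κ / 4 :=
        le_trans (min_le_left _ _) (min_le_right _ _)
      linarith
    · set η := min (min 1 (κ / 4)) (ε / 8 * Real.exp (-(M : ℝ)) / (2 * (D + 1))) with hη
      have h1 : η ≤ ε / 8 * Real.exp (-(M : ℝ)) / (2 * (D + 1)) := min_le_right _ _
      have h0 : 0 ≤ η := le_min (le_min zero_le_one (by positivity)) (by positivity)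
      rw [le_div_iff₀ (by positivity)] at h1
      rw [mul_div_assoc', div_le_iff₀ he]
      nlinarith
  -- eventual facts
  have hlog := S.tendsto_log_n
  have hev1 : ∀ᶠ l in atTop, CB ≤ Real.log (S.n l) + K' * P.Nt := by
    filter_upwards [hlog.eventually_ge_atTop (CB - K' * P.Nt)] with l hl
    linarith
  have hev2 : ∀ᶠ l in atTop, S.C₁ ≤ Real.log (S.n l) + Real.log η * D
      + ((-(M : ℤ) : ℤ) : ℝ) * ∑ t, P.lq t := by
    filter_upwards [hlog.eventually_ge_atTop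
      (S.C₁ - (Real.log η * D + ((-(M : ℤ) : ℤ) : ℝ) * ∑ t, P.lq t))] with l hl
    linarith
  have hev3 : ∀ᶠ l in atTop, Real.log (S.n l) ≤ ε / 8 * S.n l := by
    have h1 : ∀ᶠ x : ℝ in atTop, Real.log x ≤ ε / 8 * x := by
      have h2 := Real.isLittleO_log_id_atTop.def (show 0 < ε / 8 by positivity)
      filter_upwards [h2, eventually_ge_atTop (1 : ℝ)] with x hx hx1
      simp only [id, Real.norm_eq_abs] at hx
      rw [abs_of_nonneg (by linarith : (0:ℝ) ≤ x)] at hx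
      exact le_trans (le_abs_self _) hx
    exact S.card.eventually h1
  filter_upwards [hCT, hev1, hev2, hev3, S.eventually_Mx M] with l h1 h2 h3 h4 hM
  have hn := S.n_pos l
  have hn1 := S.one_le_n l
  -- the translations
  have hω : ∀ i ∈ F, ∃ ω : R, ‖S.X l ω v - w i‖ ≤ η ∧ (∀ v', v' ≠ v → ‖S.X l ω v'‖ ≤ η) ∧
      ∀ t, P.NearT t (S.j l t - M) ω 0 := by
    intro i hi
    obtain ⟨ω, hω1, hω2⟩ := S.geo.cov (fun v => η * S.s l v) (fun t => S.j l t + (-(M : ℤ)))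
      (fun v => mul_pos hη0 (S.s_pos l v)) (by rw [deg_scaled S l η hη0]; exact h3)
      (Function.update (fun v' => (0 : E (P.e v'))) v (S.s l v • w i)) 0
    refine ⟨ω, ?_, ?_, ?_⟩
    · have := hω1 v
      rw [Function.update_self, S.norm_em_sub, mul_comm η] at this
      exact le_of_mul_le_mul_left this (S.s_pos l v)
    · intro v' hv'
      have := hω1 v'
      rw [Function.update_of_ne hv', sub_zero] at this
      rw [S.norm_X, div_le_iff₀ (S.s_pos l v')]
      exact this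
    · intro t
      have := hω2 t
      rwa [← sub_eq_add_neg] at this
  choose! ω hω1 hω2 hω3 using hω
  set A : Finset R := S.A l with hA
  set Ai : ι → Finset R := fun i => A.filter (fun x => S.X l x v ∈ Q i) with hAi
  set Bd : Finset R := A.filter (fun x => ∀ i ∈ F, S.X l x v ∉ Q i) with hBd
  set G : Finset R := A.filter (fun x => ¬ ∀ i ∈ F, S.X l x v ∉ Q i) with hG
  have hAn : (A.card : ℝ) = S.n l := rfl
  have hGB : G ∪ Bd = A := by
    rw [Finset.union_comm]; exact Finset.filter_union_filter_not_eq _ _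
  have hGBd : Disjoint G Bd := (Finset.disjoint_filter_filter_not _ _ _).symm
  have hGeq : G = F.biUnion Ai := by
    ext x
    simp only [hG, hAi, Finset.mem_filter, Finset.mem_biUnion]
    constructor
    · rintro ⟨hx, h5⟩
      push Not at h5
      obtain ⟨i, hi, h6⟩ := h5
      exact ⟨i, hi, hx, h6⟩
    · rintro ⟨i, hi, hx, h6⟩
      exact ⟨hx, fun h7 => h7 i hi h6⟩
  have hpd : (F : Set ι).PairwiseDisjoint Ai := by
    intro i hi i' hi' hne
    rw [Function.onFun, Finset.disjoint_left]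
    intro x hx hx'
    simp only [hAi, Finset.mem_filter] at hx hx'
    exact Set.disjoint_left.1 (hdisj i hi i' hi' hne) hx.2 hx'.2
  have hsumG : ∀ f : R → ℝ, ∑ x ∈ G, f x = ∑ i ∈ F, ∑ x ∈ Ai i, f x := by
    intro f
    rw [hGeq, Finset.sum_biUnion hpd]
  set As : Finset R := F.biUnion fun i => (Ai i).image (fun x => x + ω i) with hAs
  have hpd' : (F : Set ι).PairwiseDisjoint fun i => (Ai i).image (fun x => x + ω i) := by
    intro i hi i' hi' hne
    rw [Function.onFun, Finset.disjoint_left]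
    intro y hy hy'
    obtain ⟨x, hx, rfl⟩ := Finset.mem_image.1 hy
    obtain ⟨x', hx', hxx⟩ := Finset.mem_image.1 hy'
    simp only [hAi, Finset.mem_filter] at hx hx'
    have h5 := hsep i hi i' hi' hne _ hx.2 _ hx'.2
    have h6 : S.X l (x' + ω i') v = S.X l (x + ω i) v := by rw [hxx]
    rw [S.X_add, S.X_add] at h6
    have h7 : (S.X l x v + w i) - (S.X l x' v + w i')
        = (S.X l (ω i') v - w i') - (S.X l (ω i) v - w i) := by
      have : S.X l x v = S.X l x' v + S.X l (ω i') v - S.X l (ω i) v := by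
        rw [h6]; abel
      rw [this]; abel
    rw [h7] at h5
    have h8 := norm_sub_le (S.X l (ω i') v - w i') (S.X l (ω i) v - w i)
    have h9 := hω1 i hi
    have h10 := hω1 i' hi'
    linarith
  have hsumAs : ∀ f : R → ℝ, ∑ x ∈ As, f x = ∑ i ∈ F, ∑ x ∈ Ai i, f (x + ω i) := by
    intro f
    rw [hAs, Finset.sum_biUnion hpd']
    apply Finset.sum_congr rfl
    intro i _
    rw [Finset.sum_image]
    intro x _ y _ hxy
    exact add_right_cancel hxy
  have hcardAs : (As.card : ℝ) = G.card := by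
    have h5 := hsumAs fun _ => 1
    have h6 := hsumG fun _ => 1
    simp only [Finset.sum_const, nsmul_eq_mul, mul_one] at h5 h6
    rw [h5, h6]
  have hcardA : (G.card : ℝ) + Bd.card = S.n l := by
    rw [← hAn, ← hGB, Finset.card_union_of_disjoint hGBd]; push_cast; rfl
  have hBdn : (Bd.card : ℝ) ≤ S.n l := by
    have : (0 : ℝ) ≤ G.card := Nat.cast_nonneg _
    linarith
  have hAsn : (As.card : ℝ) ≤ S.n l := by
    have : (0 : ℝ) ≤ Bd.card := Nat.cast_nonneg _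
    linarith
  -- fresh points
  obtain ⟨Bx, hBx1, hBx2⟩ := hCNT (fun v => Real.exp K' * S.s l v) (fun t => S.j l t + K')
    (fun v => mul_pos (Real.exp_pos _) (S.s_pos l v))
    (by
      rw [deg_scaled S l _ (Real.exp_pos _) K', Real.log_exp]
      refine le_trans h2 (le_of_eq ?_)
      unfold Data.Nt
      push_cast
      ring) (fun _ => 0) 0
  have hBx3 : 2 * S.n l ≤ Bx.card := by
    refine le_trans ?_ hBx1
    rw [deg_scaled S l _ (Real.exp_pos _) K', Real.log_exp]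
    have h5 : Real.log (S.n l) + (K' : ℝ) * ∑ v, (P.e v : ℝ) + ((K' : ℤ) : ℝ) * ∑ t, P.lq t
        = Real.log (S.n l) + K' * P.Nt := by
      unfold Data.Nt
      push_cast
      ring
    rw [h5, Real.exp_add, Real.exp_log hn]
    rw [div_le_iff₀ hcb] at hK'
    nlinarith
  have hsd : Bd.card ≤ (Bx \ As).card := by
    have h5 : Bx.card ≤ (Bx \ As).card + As.card := by
      have := Finset.le_card_sdiff As Bx
      omega
    have h6 : (Bx.card : ℝ) ≤ (Bx \ As).card + As.card := by exact_mod_cast h5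
    have h7 : (Bd.card : ℝ) ≤ (Bx \ As).card := by linarith
    exact_mod_cast h7
  obtain ⟨Z, hZ1, hZ2⟩ := Finset.exists_subset_card_eq hsd
  have hAsZ : Disjoint As Z := by
    rw [Finset.disjoint_left]
    intro x hx hx'
    exact (Finset.mem_sdiff.1 (hZ1 hx')).2 hx
  have hexZ : ∑ x ∈ Z, S.ex l x ≤ Bd.card * CK := by
    have h5 : ∀ x ∈ Z, S.ex l x ≤ CK := by
      intro x hx
      have h6 := hBx2 x (Finset.mem_sdiff.1 (hZ1 hx)).1
      refine ex_box S l K' x ?_ h6.2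
      intro v
      have := h6.1 v
      rwa [sub_zero] at this
    have := Finset.sum_le_sum h5
    rw [Finset.sum_const, nsmul_eq_mul, hZ2] at this
    exact this
  have hexAs : ∑ x ∈ As, S.ex l x ≤ (CT + CW) * S.n l := by
    rw [hsumAs]
    have h5 : ∀ i ∈ F, ∀ x ∈ Ai i, S.ex l (x + ω i) ≤ S.ex l x + CW := by
      intro i hi x _
      apply ex_add_le S l x (ω i) (|W| + 1)
      · intro v'
        by_cases hv : v' = v
        · subst hv
          have h6 := hω1 i hi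
          have h7 := hw i hi
          have h8 : ‖S.X l (ω i) v'‖ ≤ ‖S.X l (ω i) v' - w i‖ + ‖w i‖ := by
            have := norm_add_le (S.X l (ω i) v' - w i) (w i)
            rwa [sub_add_cancel] at this
          have h9 := le_abs_self W
          linarith
        · have h6 := hω2 i hi v' hv
          have h7 := abs_nonneg W
          linarith
      · intro t
        exact (hω3 i hi t).mono (by
          have : (0 : ℤ) ≤ M := Int.natCast_nonneg M
          omega)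
    calc ∑ i ∈ F, ∑ x ∈ Ai i, S.ex l (x + ω i) ≤ ∑ i ∈ F, ∑ x ∈ Ai i, (S.ex l x + CW) :=
          Finset.sum_le_sum fun i hi => Finset.sum_le_sum fun x hx => h5 i hi x hx
      _ = ∑ x ∈ G, (S.ex l x + CW) := (hsumG _).symm
      _ ≤ ∑ x ∈ A, (S.ex l x + CW) := by
          apply Finset.sum_le_sum_of_subset_of_nonneg (Finset.filter_subset _ _)
          intro x _ _
          have := S.ex_nonneg l x
          linarith
      _ = ∑ x ∈ A, S.ex l x + A.card * CW := by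
          rw [Finset.sum_add_distrib, Finset.sum_const, nsmul_eq_mul]
      _ ≤ _ := by rw [hAn]; linarith
  have hexBd : ∑ x ∈ Bd, S.ex l x ≤ CT * S.n l := by
    refine le_trans ?_ h1
    apply Finset.sum_le_sum_of_subset_of_nonneg (Finset.filter_subset _ _)
    intro x _ _
    exact S.ex_nonneg l x
  -- comparison
  have hcard : (As ∪ Z).card = A.card := by
    have h5 : ((As ∪ Z).card : ℝ) = A.card := by
      rw [Finset.card_union_of_disjoint hAsZ]
      push_cast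
      rw [hZ2, hcardAs, hcardA, hAn]
    exact_mod_cast h5
  have hcomp := compare S l M hM (As ∪ Z) hcard
  rw [← hA] at hcomp
  have hsymm : ∀ x y, q S l M x y = q S l M y x := q_symm S l M
  have hAA : ∑ x ∈ A, ∑ y ∈ A, q S l M x y = ∑ x ∈ G, ∑ y ∈ G, q S l M x y
      + 2 * ∑ x ∈ Bd, ∑ y ∈ A, q S l M x y - ∑ x ∈ Bd, ∑ y ∈ Bd, q S l M x y := by
    have h5 := sum_sum_union G Bd hGBd (q S l M) hsymm
    rw [hGB] at h5
    have h6 : ∑ x ∈ Bd, ∑ y ∈ A, q S l M x y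
        = ∑ x ∈ Bd, ∑ y ∈ G, q S l M x y + ∑ x ∈ Bd, ∑ y ∈ Bd, q S l M x y := by
      rw [← Finset.sum_add_distrib]
      apply Finset.sum_congr rfl
      intro x _
      rw [← hGB, Finset.sum_union hGBd]
    rw [h5, h6]; ring
  rw [sum_sum_union As Z hAsZ (q S l M) hsymm, hAA] at hcomp
  have hb1 : -(Bd.card * (CL * P.Nt * S.n l)) ≤ ∑ x ∈ Bd, ∑ y ∈ A, q S l M x y := by
    have h5 := Finset.sum_le_sum fun x (_ : x ∈ Bd) => sum_q_ge S hCL l M hM x
    rw [Finset.sum_const, nsmul_eq_mul] at h5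
    linarith
  have hBd0 : (0 : ℝ) ≤ Bd.card := Nat.cast_nonneg _
  have hAs0 : (0 : ℝ) ≤ As.card := Nat.cast_nonneg _
  have hb2 : ∑ x ∈ Bd, ∑ y ∈ Bd, q S l M x y ≤ Bd.card * S.n l * (C0 + 2 * CT) := by
    have h5 := sum_q_le S l M Bd Bd
    have h6 : (Bd.card : ℝ) * Bd.card * C0 ≤ Bd.card * S.n l * C0 :=
      mul_le_mul_of_nonneg_right (mul_le_mul_of_nonneg_left hBdn hBd0) hC00
    have h7 : (Bd.card : ℝ) * ∑ x ∈ Bd, S.ex l x ≤ Bd.card * (CT * S.n l) :=
      mul_le_mul_of_nonneg_left hexBd hBd0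
    linarith
  have hb3 : ∑ x ∈ Z, ∑ y ∈ As, q S l M x y ≤ Bd.card * S.n l * (C0 + CK + CT + CW) := by
    have h5 := sum_q_le S l M Z As
    rw [hZ2] at h5
    have h6 : (Bd.card : ℝ) * As.card * C0 ≤ Bd.card * S.n l * C0 :=
      mul_le_mul_of_nonneg_right (mul_le_mul_of_nonneg_left hAsn hBd0) hC00
    have h7 : (Bd.card : ℝ) * ∑ y ∈ As, S.ex l y ≤ Bd.card * ((CT + CW) * S.n l) :=
      mul_le_mul_of_nonneg_left hexAs hBd0
    have h8 : (As.card : ℝ) * ∑ x ∈ Z, S.ex l x ≤ S.n l * (Bd.card * CK) :=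
      mul_le_mul hAsn hexZ (Finset.sum_nonneg fun x _ => S.ex_nonneg l x) hn.le
    linarith
  have hb4 : ∑ x ∈ Z, ∑ y ∈ Z, q S l M x y ≤ Bd.card * S.n l * (C0 + 2 * CK) := by
    have h5 := sum_q_le S l M Z Z
    rw [hZ2] at h5
    have h6 : (Bd.card : ℝ) * Bd.card * C0 ≤ Bd.card * S.n l * C0 :=
      mul_le_mul_of_nonneg_right (mul_le_mul_of_nonneg_left hBdn hBd0) hC00
    have h7 : (Bd.card : ℝ) * ∑ x ∈ Z, S.ex l x ≤ S.n l * (Bd.card * CK) :=
      mul_le_mul hBdn hexZ (Finset.sum_nonneg fun x _ => S.ex_nonneg l x) hn.le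
    linarith
  -- the moved pieces
  set T : ℝ := ∑ i ∈ F, ∑ i' ∈ F, ∑ x ∈ Ai i, ∑ y ∈ Ai i',
          (Real.log (‖(S.X l x v + w i) - (S.X l y v + w i')‖ ^ 2 + Real.exp (-(M : ℝ)) ^ 2)
            - Real.log (‖S.X l x v - S.X l y v‖ ^ 2 + Real.exp (-(M : ℝ)) ^ 2)) with hT
  have hAsAs : ∑ x ∈ As, ∑ y ∈ As, q S l M x y
      = ∑ i ∈ F, ∑ i' ∈ F, ∑ x ∈ Ai i, ∑ y ∈ Ai i', q S l M (x + ω i) (y + ω i') := by
    rw [hsumAs]
    apply Finset.sum_congr rfl
    intro i _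
    exact (Finset.sum_congr rfl fun x _ => hsumAs _).trans Finset.sum_comm
  have hGG : ∑ x ∈ G, ∑ y ∈ G, q S l M x y
      = ∑ i ∈ F, ∑ i' ∈ F, ∑ x ∈ Ai i, ∑ y ∈ Ai i', q S l M x y := by
    rw [hsumG]
    apply Finset.sum_congr rfl
    intro i _
    exact (Finset.sum_congr rfl fun x _ => hsumG _).trans Finset.sum_comm
  set δ : ℝ := D * (2 * η / Real.exp (-(M : ℝ))) with hδ
  have hδ0 : 0 ≤ δ := by positivity
  have hpairs : ∑ i ∈ F, ∑ i' ∈ F, ∑ x ∈ Ai i, ∑ y ∈ Ai i', δ = (G.card : ℝ) ^ 2 * δ := by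
    have h5 : ∑ x ∈ G, ∑ y ∈ G, δ = ∑ i ∈ F, ∑ i' ∈ F, ∑ x ∈ Ai i, ∑ y ∈ Ai i', δ := by
      rw [hsumG]
      apply Finset.sum_congr rfl
      intro i _
      exact (Finset.sum_congr rfl fun x _ => hsumG _).trans Finset.sum_comm
    rw [← h5]
    simp only [Finset.sum_const, nsmul_eq_mul]
    ring
  have hmove : ∑ x ∈ As, ∑ y ∈ As, q S l M x y ≤ ∑ x ∈ G, ∑ y ∈ G, q S l M x y
      + (P.e v : ℝ) / 2 * T + S.n l ^ 2 * δ := by
    have h5 : ∑ x ∈ As, ∑ y ∈ As, q S l M x y ≤ ∑ x ∈ G, ∑ y ∈ G, q S l M x y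
        + (P.e v : ℝ) / 2 * T + (G.card : ℝ) ^ 2 * δ := by
      rw [hAsAs, hGG, hT, ← hpairs, Finset.mul_sum, ← Finset.sum_add_distrib,
        ← Finset.sum_add_distrib]
      apply Finset.sum_le_sum
      intro i hi
      rw [Finset.mul_sum, ← Finset.sum_add_distrib, ← Finset.sum_add_distrib]
      apply Finset.sum_le_sum
      intro i' hi'
      rw [Finset.mul_sum, ← Finset.sum_add_distrib, ← Finset.sum_add_distrib]
      apply Finset.sum_le_sum
      intro x _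
      rw [Finset.mul_sum, ← Finset.sum_add_distrib, ← Finset.sum_add_distrib]
      apply Finset.sum_le_sum
      intro y _
      exact q_move S l M v x y (ω i) (ω i') (w i) (w i') η hη0.le (hω1 i hi) (hω1 i' hi')
        (hω2 i hi) (hω2 i' hi') (hω3 i hi) (hω3 i' hi')
    have h6 : (G.card : ℝ) ≤ S.n l := by linarith
    have h7 : (G.card : ℝ) ^ 2 ≤ S.n l ^ 2 := pow_le_pow_left₀ (Nat.cast_nonneg _) h6 2
    have h8 := mul_le_mul_of_nonneg_right h7 hδ0
    linarith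
  set Ee : ℝ := S.C * Real.exp (-(S.c * M)) with hEe
  have hEe0 : 0 ≤ Ee := by positivity
  have hmain : -((P.e v : ℝ) / 2 * T) ≤ S.n l ^ 2 * δ + Bd.card * S.n l * Cb
      + S.n l * Real.log (S.n l) + Ee * S.n l ^ 2 := by
    rw [hCb]
    linarith
  have hlog2 : S.n l * Real.log (S.n l) ≤ S.n l * (ε / 8 * S.n l) :=
    mul_le_mul_of_nonneg_left h4 hn.le
  have hδ2 : S.n l ^ 2 * δ ≤ S.n l ^ 2 * (ε / 8) := mul_le_mul_of_nonneg_left hηε (by positivity)
  have hev := S.geo.e_ge v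
  have hmain2 : -T ≤ 2 * (S.n l ^ 2 * (ε / 4) + Bd.card * S.n l * Cb + Ee * S.n l ^ 2) := by
    have h5 : 0 ≤ S.n l ^ 2 * (ε / 4) + Bd.card * S.n l * Cb + Ee * S.n l ^ 2 := by positivity
    have h6 : -((P.e v : ℝ) / 2 * T)
        ≤ S.n l ^ 2 * (ε / 4) + Bd.card * S.n l * Cb + Ee * S.n l ^ 2 := by linarith
    by_cases hT0 : 0 ≤ T
    · linarith
    · push Not at hT0
      nlinarith
  -- conclusion
  have h5 : (S.n l)⁻¹ ^ 2 * T = T / S.n l ^ 2 := by
    rw [inv_pow]; field_simp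
  rw [h5, le_div_iff₀ (by positivity)]
  have h6 : ((Bd.card : ℝ) / S.n l) * S.n l ^ 2 = Bd.card * S.n l := by
    field_simp
  have h7 : 0 ≤ (Bd.card : ℝ) * S.n l := by positivity
  have h8 : 0 ≤ Real.exp (-(S.c * M)) * S.n l ^ 2 := by positivity
  calc (-ε - (2 * Cb + 2 * S.C) * Real.exp (-(S.c * M))
        - (2 * Cb + 2 * S.C) * ((Bd.card : ℝ) / S.n l)) * S.n l ^ 2
      = -ε * S.n l ^ 2 - (2 * Cb + 2 * S.C) * (Real.exp (-(S.c * M)) * S.n l ^ 2)
        - (2 * Cb + 2 * S.C) * (((Bd.card : ℝ) / S.n l) * S.n l ^ 2) := by ring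
    _ ≤ T := by
        rw [h6]
        have h9 : 0 ≤ Cb * (Real.exp (-(S.c * M)) * S.n l ^ 2) := by positivity
        have h10 : 0 ≤ S.C * ((Bd.card : ℝ) * S.n l) := by positivity
        have h11 : 0 ≤ ε * S.n l ^ 2 := by positivity
        rw [hEe] at hmain2
        linarith

end Pool.NS
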