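import Pool.Agent.Work.MP_b29d7f_ns.Interface3

set_option autoImplicit false

open Finset Filter Topology MeasureTheory

namespace Pool.NS

namespace HOLD_

open Data

lemma norm_one {k : ℕ} (hk : k = 1) (i₀ : Fin k) (z : E k) : ‖z‖ = |z i₀| := by
  subst hk
  have : i₀ = 0 := Subsingleton.elim _ _
  subst this
  rw [EuclideanSpace.norm_eq, Fin.sum_univ_one, Real.norm_eq_abs, sq_abs, Real.sqrt_sq_eq_abs]

lemma mul_log_le {a : ℝ} (ha : 0 < a) : a * Real.log (1 / a) ≤ 5 * a ^ (4 / 5 : ℝ) := by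
  have h1 := Real.log_le_rpow_div (show 0 ≤ 1 / a by positivity) (show (0 : ℝ) < 1 / 5 by norm_num)
  have h2 : (1 / a) ^ (1 / 5 : ℝ) = a ^ (-(1 / 5) : ℝ) := by
    rw [one_div, Real.inv_rpow ha.le, Real.rpow_neg ha.le]
  have h3 : a * a ^ (-(1 / 5) : ℝ) = a ^ (4 / 5 : ℝ) := by
    nth_rewrite 1 [← Real.rpow_one a]
    rw [← Real.rpow_add ha]
    norm_num
  calc a * Real.log (1 / a) ≤ a * ((1 / a) ^ (1 / 5 : ℝ) / (1 / 5)) :=
        mul_le_mul_of_nonneg_left h1 ha.le
    _ = 5 * (a * a ^ (-(1 / 5) : ℝ)) := by rw [h2]; ring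
    _ = _ := by rw [h3]

lemma frontier_ball {k : ℕ} (z : E k) {r : ℝ} (hr : 0 < r) :
    volume (frontier (Metric.closedBall z r)) = 0 := by
  rcases Nat.eq_zero_or_pos k with hk | hk
  · subst hk
    have : Metric.closedBall z r = Set.univ := by
      ext y
      simp only [Metric.mem_closedBall, Set.mem_univ, iff_true]
      have : y = z := Subsingleton.elim _ _
      rw [this, dist_self]
      exact hr.le
    rw [this, frontier_univ, measure_empty]
  · haveI : Nonempty (Fin k) := ⟨⟨0, hk⟩⟩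
    haveI : Nontrivial (E k) := inferInstance
    rw [frontier_closedBall _ hr.ne']
    exact Measure.addHaar_sphere _ _ _

variable {R : Type} [CommRing R] {P : Data R}

/-- the displacement -/
noncomputable def disp (v₁ v₂ : P.Ω) (i₀ : Fin (P.e v₁)) (b : ℝ) (u : E (P.e v₂)) :
    (v : P.Ω) → E (P.e v) :=
  Function.update (Function.update (fun v => (0 : E (P.e v))) v₁ (EuclideanSpace.single i₀ b)) v₂ u

lemma disp_v₂ (v₁ v₂ : P.Ω) (i₀ : Fin (P.e v₁)) (b : ℝ) (u : E (P.e v₂)) :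
    disp v₁ v₂ i₀ b u v₂ = u := by
  unfold disp; rw [Function.update_self]

lemma disp_v₁ {v₁ v₂ : P.Ω} (hne : v₁ ≠ v₂) (i₀ : Fin (P.e v₁)) (b : ℝ) (u : E (P.e v₂)) :
    disp v₁ v₂ i₀ b u v₁ = EuclideanSpace.single i₀ b := by
  unfold disp; rw [Function.update_of_ne hne, Function.update_self]

lemma disp_other {v₁ v₂ v : P.Ω} (h1 : v ≠ v₁) (h2 : v ≠ v₂) (i₀ : Fin (P.e v₁)) (b : ℝ)
    (u : E (P.e v₂)) : disp v₁ v₂ i₀ b u v = 0 := by
  unfold disp; rw [Function.update_of_ne h2, Function.update_of_ne h1]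

lemma norm_disp {v₁ v₂ : P.Ω} (hne : v₁ ≠ v₂) (i₀ : Fin (P.e v₁)) (b : ℝ) (u : E (P.e v₂))
    (v : P.Ω) : ‖disp v₁ v₂ i₀ b u v‖ ≤ |b| + ‖u‖ := by
  have hb := abs_nonneg b
  have hu := norm_nonneg u
  by_cases h2 : v = v₂
  · subst h2; rw [disp_v₂]; linarith
  by_cases h1 : v = v₁
  · subst h1
    rw [disp_v₁ hne, PiLp.norm_single, Real.norm_eq_abs]
    linarith
  · rw [disp_other h1 h2, norm_zero]; linarith

/-- drop of the potential -/
lemma drop (φ : (v : P.Ω) → E (P.e v) → ℝ) (z₀ : (v : P.Ω) → E (P.e v)) {v₁ v₂ : P.Ω}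
    (hne : v₁ ≠ v₂) (he : P.e v₁ = 1) (i₀ : Fin (P.e v₁)) {c T Cu τ σ : ℝ}
    (hτ : 0 < τ) (hσ : σ = 1 ∨ σ = -1) (hc : 0 < c)
    (hlow : ∀ x y : E (P.e v₁), ‖x‖ ≤ T + 2 * ‖z₀ v₁‖ → ‖y‖ ≤ T + 2 * ‖z₀ v₁‖ →
      ‖x - z₀ v₁‖ ≤ ‖y - z₀ v₁‖ →
      c * (‖y - z₀ v₁‖ ^ 2 - ‖x - z₀ v₁‖ ^ 2) ≤ φ v₁ y - φ v₁ x)
    (hupm : ∀ x y : E (P.e v₂), ‖x‖ ≤ T + 1 → ‖y‖ ≤ T + 1 → ‖x - y‖ ≤ 1 / 2 →
      |φ v₂ x - φ v₂ y| ≤ Cu * ‖x - y‖ * Real.log (1 / ‖x - y‖))
    (u : E (P.e v₂)) (hu : ‖u‖ ≤ 1 / 4) (X : (v : P.Ω) → E (P.e v)) (hX : ∀ v, ‖X v‖ ≤ T)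
    (hσX : τ ≤ σ * (X v₁ - z₀ v₁) i₀) :
    ∑ v, (φ v (X v + disp v₁ v₂ i₀ (-(σ * τ)) u v) - φ v (X v))
      ≤ -(c * τ ^ 2) + Cu * ‖u‖ * Real.log (1 / ‖u‖) := by
  have hσ2 : σ * σ = 1 := by rcases hσ with h | h <;> rw [h] <;> norm_num
  have hσa : |σ| = 1 := by rcases hσ with h | h <;> rw [h] <;> norm_num
  rw [Fintype.sum_eq_add v₁ v₂ hne]
  · rw [disp_v₁ hne, disp_v₂]
    have h1 : φ v₁ (X v₁ + EuclideanSpace.single i₀ (-(σ * τ))) - φ v₁ (X v₁) ≤ -(c * τ ^ 2) := by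
      set t : ℝ := (X v₁ - z₀ v₁) i₀ with ht
      have h2 : ‖X v₁ - z₀ v₁‖ = σ * t := by
        rw [norm_one he i₀, ← ht]
        have : |σ * t| = |t| := by rw [abs_mul, hσa, one_mul]
        rw [← this, abs_of_nonneg (by linarith)]
      have h3 : ‖X v₁ + EuclideanSpace.single i₀ (-(σ * τ)) - z₀ v₁‖ = σ * t - τ := by
        rw [norm_one he i₀]
        have h4 : (X v₁ + EuclideanSpace.single i₀ (-(σ * τ)) - z₀ v₁) i₀ = t - σ * τ := by
          rw [ht]
          simp only [PiLp.sub_apply, PiLp.add_apply, PiLp.single_apply, if_true]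
          ring
        rw [h4]
        have h5 : |t - σ * τ| = |σ * (t - σ * τ)| := by rw [abs_mul, hσa, one_mul]
        have h6 : σ * (t - σ * τ) = σ * t - τ := by
          calc σ * (t - σ * τ) = σ * t - (σ * σ) * τ := by ring
            _ = _ := by rw [hσ2, one_mul]
        rw [h5, h6, abs_of_nonneg (by linarith)]
      have h4 := hlow (X v₁ + EuclideanSpace.single i₀ (-(σ * τ))) (X v₁)
        (by
          have h5 := norm_add_le (X v₁ + EuclideanSpace.single i₀ (-(σ * τ)) - z₀ v₁) (z₀ v₁)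
          rw [sub_add_cancel] at h5
          have h6 := norm_sub_le (X v₁) (z₀ v₁)
          have h7 := hX v₁
          linarith)
        (by
          have h5 := norm_nonneg (z₀ v₁)
          have h7 := hX v₁
          linarith)
        (by linarith)
      rw [h2, h3] at h4
      have h5 : τ ^ 2 ≤ (σ * t) ^ 2 - (σ * t - τ) ^ 2 := by nlinarith
      have h6 := mul_le_mul_of_nonneg_left h5 hc.le
      linarith
    have h2 : φ v₂ (X v₂ + u) - φ v₂ (X v₂) ≤ Cu * ‖u‖ * Real.log (1 / ‖u‖) := by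
      have h3 := hupm (X v₂ + u) (X v₂)
        (by
          have h4 := norm_add_le (X v₂) u
          have h5 := hX v₂
          linarith)
        (by
          have h5 := hX v₂
          linarith)
        (by rw [add_sub_cancel_left]; linarith)
      rw [add_sub_cancel_left] at h3
      exact le_trans (le_abs_self _) h3
    linarith
  · rintro v ⟨h1, h2⟩
    rw [disp_other h1 h2, add_zero, sub_self]


open scoped Classical in
/-- one translation -/
lemma shift (S : Sq P) (l : ℕ) {v₁ v₂ : P.Ω} (i₀ : Fin (P.e v₁))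
    (z₀ : (v : P.Ω) → E (P.e v)) (u : E (P.e v₂)) {T h κ τ σ lam : ℝ}
    (hσ : σ = 1 ∨ σ = -1) (ω : R)
    (hω1 : ‖S.X l ω v₁ - EuclideanSpace.single i₀ (-(σ * τ))‖ ≤ κ)
    (hω2 : ‖S.X l ω v₂ - u‖ ≤ κ)
    (hmem : ∀ x ∈ S.A l, S.ex l x ≤ T → S.Ph l x ≤ lam → τ ≤ σ * (S.X l x v₁ - z₀ v₁) i₀ →
      x + ω ∈ S.A l) (hκ : 0 ≤ κ) :
    ((S.A l).filter fun x => S.ex l x ≤ T ∧ S.Ph l x ≤ lam ∧ ‖S.X l x v₂ - z₀ v₂‖ ≤ h ∧
      τ + 2 * κ ≤ σ * (S.X l x v₁ - z₀ v₁) i₀).card ≤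
    ((S.A l).filter fun x => S.X l x v₂ ∈ Metric.closedBall (z₀ v₂ + u) (h + κ) ∧
      κ ≤ σ * (S.X l x v₁ - z₀ v₁) i₀).card := by
  have hσ2 : σ * σ = 1 := by rcases hσ with h | h <;> rw [h] <;> norm_num
  have hσa : |σ| = 1 := by rcases hσ with h | h <;> rw [h] <;> norm_num
  apply Finset.card_le_card_of_injOn (fun x => x + ω)
  · intro x hx
    simp only [Finset.coe_filter, Set.mem_ofPred_eq] at hx ⊢
    obtain ⟨hxA, h1, h2, h3, h4⟩ := hx
    refine ⟨hmem x hxA h1 h2 (by linarith), ?_, ?_⟩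
    · rw [Metric.mem_closedBall, dist_eq_norm, S.X_add]
      calc ‖S.X l x v₂ + S.X l ω v₂ - (z₀ v₂ + u)‖
          = ‖(S.X l x v₂ - z₀ v₂) + (S.X l ω v₂ - u)‖ := by congr 1; abel
        _ ≤ ‖S.X l x v₂ - z₀ v₂‖ + ‖S.X l ω v₂ - u‖ := norm_add_le _ _
        _ ≤ h + κ := by linarith
    · rw [S.X_add]
      have h5 : |(S.X l ω v₁ - EuclideanSpace.single i₀ (-(σ * τ))) i₀| ≤ κ := by
        have := PiLp.norm_apply_le (S.X l ω v₁ - EuclideanSpace.single i₀ (-(σ * τ))) i₀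
        rw [Real.norm_eq_abs] at this
        exact le_trans this hω1
      have h6 : (S.X l x v₁ + S.X l ω v₁ - z₀ v₁) i₀ = (S.X l x v₁ - z₀ v₁) i₀ - σ * τ
          + (S.X l ω v₁ - EuclideanSpace.single i₀ (-(σ * τ))) i₀ := by
        simp only [PiLp.sub_apply, PiLp.add_apply, PiLp.single_apply, if_true]
        ring
      rw [h6]
      set e := (S.X l ω v₁ - EuclideanSpace.single i₀ (-(σ * τ))) i₀ with he
      have h7 : |σ * e| ≤ κ := by rw [abs_mul, hσa, one_mul]; exact h5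
      have h8 := (abs_le.1 h7).1
      have h9 : σ * ((S.X l x v₁ - z₀ v₁) i₀ - σ * τ + e)
          = σ * (S.X l x v₁ - z₀ v₁) i₀ - (σ * σ) * τ + σ * e := by ring
      rw [h9, hσ2]
      linarith
  · intro x _ y _ hxy
    exact add_right_cancel hxy

open scoped Classical in
/-- the counting inequality -/
lemma count_ball (S : Sq P) (l : ℕ) {v₁ v₂ : P.Ω} (he : P.e v₁ = 1) (i₀ : Fin (P.e v₁))
    (z₀ : (v : P.Ω) → E (P.e v)) (u : E (P.e v₂)) {T h κ τ lam : ℝ} (hκ : 0 < κ)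
    (hshift : ∀ σ : ℝ, σ = 1 ∨ σ = -1 → ∃ ω : R,
      ‖S.X l ω v₁ - EuclideanSpace.single i₀ (-(σ * τ))‖ ≤ κ ∧ ‖S.X l ω v₂ - u‖ ≤ κ ∧
      ∀ x ∈ S.A l, S.ex l x ≤ T → S.Ph l x ≤ lam → τ ≤ σ * (S.X l x v₁ - z₀ v₁) i₀ →
      x + ω ∈ S.A l) :
    ((S.A l).filter fun x => S.X l x v₂ ∈ Metric.closedBall (z₀ v₂) h).card ≤
      ((S.A l).filter fun x => S.X l x v₂ ∈ Metric.closedBall (z₀ v₂ + u) (h + κ)).card
      + ((S.A l).filter fun x => S.ex l x ≤ T ∧ ‖S.X l x v₂ - z₀ v₂‖ ≤ h ∧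
          ‖S.X l x v₁ - z₀ v₁‖ ≤ τ + 2 * κ).card
      + ((S.A l).filter fun x => T ≤ S.ex l x).card
      + ((S.A l).filter fun x => lam < S.Ph l x).card := by
  set F := fun σ : ℝ => (S.A l).filter fun x => S.ex l x ≤ T ∧ S.Ph l x ≤ lam ∧
      ‖S.X l x v₂ - z₀ v₂‖ ≤ h ∧ τ + 2 * κ ≤ σ * (S.X l x v₁ - z₀ v₁) i₀ with hF
  set G := fun σ : ℝ => (S.A l).filter fun x =>
      S.X l x v₂ ∈ Metric.closedBall (z₀ v₂ + u) (h + κ) ∧
      κ ≤ σ * (S.X l x v₁ - z₀ v₁) i₀ with hG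
  have h1 : ∀ σ : ℝ, σ = 1 ∨ σ = -1 → (F σ).card ≤ (G σ).card := by
    intro σ hσ
    obtain ⟨ω, hω1, hω2, hω3⟩ := hshift σ hσ
    exact shift S l i₀ z₀ u hσ ω hω1 hω2 hω3 hκ.le
  have h2 : (G 1).card + (G (-1)).card ≤
      ((S.A l).filter fun x => S.X l x v₂ ∈ Metric.closedBall (z₀ v₂ + u) (h + κ)).card := by
    rw [← Finset.card_union_of_disjoint]
    · apply Finset.card_le_card
      intro x hx
      rcases Finset.mem_union.1 hx with hx | hx <;>
      · simp only [hG, Finset.mem_filter] at hx ⊢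
        exact ⟨hx.1, hx.2.1⟩
    · rw [Finset.disjoint_left]
      intro x hx hx'
      simp only [hG, Finset.mem_filter] at hx hx'
      have h3 := hx.2.2
      have h4 := hx'.2.2
      linarith
  have h3 : ((S.A l).filter fun x => S.X l x v₂ ∈ Metric.closedBall (z₀ v₂) h) ⊆
      (F 1 ∪ F (-1)) ∪ ((S.A l).filter fun x => S.ex l x ≤ T ∧ ‖S.X l x v₂ - z₀ v₂‖ ≤ h ∧
          ‖S.X l x v₁ - z₀ v₁‖ ≤ τ + 2 * κ) ∪ ((S.A l).filter fun x => T ≤ S.ex l x)
        ∪ ((S.A l).filter fun x => lam < S.Ph l x) := by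
    intro x hx
    rw [Finset.mem_filter, Metric.mem_closedBall, dist_eq_norm] at hx
    obtain ⟨hxA, hx2⟩ := hx
    simp only [hF, Finset.mem_union, Finset.mem_filter]
    by_cases h4 : lam < S.Ph l x
    · exact Or.inr ⟨hxA, h4⟩
    by_cases h5 : T ≤ S.ex l x
    · exact Or.inl (Or.inr ⟨hxA, h5⟩)
    by_cases h6 : ‖S.X l x v₁ - z₀ v₁‖ ≤ τ + 2 * κ
    · exact Or.inl (Or.inl (Or.inr ⟨hxA, (not_le.1 h5).le, hx2, h6⟩))
    rw [norm_one he i₀, not_le] at h6
    rcases le_total 0 ((S.X l x v₁ - z₀ v₁) i₀) with h7 | h7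
    · rw [abs_of_nonneg h7] at h6
      exact Or.inl (Or.inl (Or.inl (Or.inl
        ⟨hxA, (not_le.1 h5).le, not_lt.1 h4, hx2, by linarith⟩)))
    · rw [abs_of_nonpos h7] at h6
      exact Or.inl (Or.inl (Or.inl (Or.inr
        ⟨hxA, (not_le.1 h5).le, not_lt.1 h4, hx2, by linarith⟩)))
  have h4 := Finset.card_le_card h3
  have h5 := h1 1 (Or.inl rfl)
  have h6 := h1 (-1) (Or.inr rfl)
  refine le_trans h4 ?_
  refine le_trans (Finset.card_union_le _ _) (Nat.add_le_add_right ?_ _)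
  refine le_trans (Finset.card_union_le _ _) (Nat.add_le_add_right ?_ _)
  refine le_trans (Finset.card_union_le _ _) (Nat.add_le_add_right ?_ _)
  refine le_trans (Finset.card_union_le _ _) ?_
  omega

/-- degree of the box of the strip -/
lemma deg_strip (S : Sq P) (l : ℕ) {v₁ v₂ : P.Ω} (hne : v₁ ≠ v₂) (he1 : P.e v₁ = 1)
    (he2 : P.e v₂ = 1) {T a h : ℝ} (hT : 0 ≤ T) (ha : 0 < a) (hh : 0 < h) (r : P.T → ℤ) :
    P.deg (fun v => (if v = v₁ then a else if v = v₂ then h else Real.exp T) * S.s l v)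
      (fun t => S.j l t + r t) ≤ Real.log (S.n l) + (T * ∑ v, (P.e v : ℝ)
        + ∑ t, P.lq t * (r t : ℝ)) + Real.log a + Real.log h := by
  have hdeg := (S.frame l).deg_eq
  unfold Sq.n
  rw [← hdeg]
  unfold Data.deg
  have h1 : ∑ v, (P.e v : ℝ) *
      Real.log ((if v = v₁ then a else if v = v₂ then h else Real.exp T) * S.s l v)
      ≤ ∑ v, ((P.e v : ℝ) * Real.log (S.s l v) + T * (P.e v : ℝ)
        + (if v = v₁ then Real.log a else 0) + (if v = v₂ then Real.log h else 0)) := by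
    apply Finset.sum_le_sum
    intro v _
    have hs := S.s_pos l v
    have he0 : (0 : ℝ) ≤ P.e v := Nat.cast_nonneg _
    by_cases h1 : v = v₁
    · subst h1
      rw [if_pos rfl, if_pos rfl, if_neg hne, Real.log_mul ha.ne' hs.ne', he1]
      push_cast
      linarith
    · by_cases h2 : v = v₂
      · subst h2
        rw [if_neg h1, if_pos rfl, if_neg h1, if_pos rfl, Real.log_mul hh.ne' hs.ne', he2]
        push_cast
        linarith
      · rw [if_neg h1, if_neg h2, if_neg h1, if_neg h2, Real.log_mul (Real.exp_pos _).ne' hs.ne',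
          Real.log_exp]
        linarith
  have h2 : ∑ t, P.lq t * ((S.j l t + r t : ℤ) : ℝ)
      = ∑ t, P.lq t * (S.j l t : ℝ) + ∑ t, P.lq t * (r t : ℝ) := by
    rw [← Finset.sum_add_distrib]
    apply Finset.sum_congr rfl
    intro t _
    push_cast
    ring
  rw [Finset.sum_add_distrib, Finset.sum_add_distrib, Finset.sum_add_distrib,
    Finset.sum_ite_eq' Finset.univ v₁, Finset.sum_ite_eq' Finset.univ v₂,
    if_pos (Finset.mem_univ _), if_pos (Finset.mem_univ _), ← Finset.mul_sum] at h1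
  rw [h2]
  linarith

end HOLD_

open HOLD_ Data in
open scoped Classical in
theorem stmt_HOLD (hSUB : Stmt_SUB) (hPLC : Stmt_PLC) (hMOVE : Stmt_MOVE) (hWKC : Stmt_WKC)
    (hUPM : Stmt_UPM) (hCNT : Stmt_CNT) (hTAIL : Stmt_TAIL) : Stmt_HOLD := by
  intro R _ P S f φ z₀ hL hR v₁ v₂ hne he1 he2
  obtain ⟨lam, hlam⟩ := hSUB R P S
  obtain ⟨CT, hCT1, -, hCT⟩ := hTAIL R P S
  obtain ⟨Cn, hCn0, hCn⟩ := hCNT R P S.C₁ S.geo
  have hCT0 : 0 ≤ CT := by linarith
  set T : ℝ := Real.exp CT with hT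
  have hT0 : 0 < T := Real.exp_pos _
  obtain ⟨c, hc, hlow⟩ := (hR v₁).low (T + 2 * ‖z₀ v₁‖)
  obtain ⟨Cu, hCu0, hupm⟩ := hUPM _ (f v₂) (φ v₂) (Or.inl he2) (hL v₂).dens (T + 1)
  have hd := (hL v₂).dens
  have i₀ : Fin (P.e v₁) := ⟨0, by omega⟩
  -- constants
  set C2 : ℝ := (5 * Cu + 1) / c + 1 with hC2d
  have hC21 : 1 ≤ C2 := by
    have : 0 ≤ (5 * Cu + 1) / c := by positivity
    linarith
  have hC2 : 5 * Cu + 1 ≤ c * C2 ^ 2 := by
    have h1 : 5 * Cu + 1 ≤ c * C2 := by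
      have : c * C2 = 5 * Cu + 1 + c := by rw [hC2d]; field_simp
      linarith
    nlinarith
  set r : P.T → ℤ := fun t => ⌈CT / P.lq t⌉ with hr
  set Ce : ℝ := CT * ∑ v, (P.e v : ℝ) + ∑ t, P.lq t * (r t : ℝ) with hCe
  refine ⟨Cn * Real.exp Ce * (3 * C2), by positivity, ?_⟩
  intro u hu0 hu
  set a : ℝ := ‖u‖ with ha
  set τ : ℝ := C2 * a ^ (2 / 5 : ℝ) with hτd
  have ha25 : 0 < a ^ (2 / 5 : ℝ) := Real.rpow_pos_of_pos hu0 _
  have hτ : 0 < τ := by positivity
  set δ : ℝ := a ^ (4 / 5 : ℝ) with hδd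
  have hδ : 0 < δ := Real.rpow_pos_of_pos hu0 _
  have hdrop : -(c * τ ^ 2) + Cu * a * Real.log (1 / a) ≤ -δ := by
    have h1 : τ ^ 2 = C2 ^ 2 * δ := by
      rw [hτd, mul_pow, hδd, ← Real.rpow_natCast (a ^ (2 / 5 : ℝ)) 2, ← Real.rpow_mul hu0.le]
      norm_num
    have h2 := mul_log_le hu0
    rw [← hδd] at h2
    have h3 : Cu * a * Real.log (1 / a) ≤ Cu * (5 * δ) := by
      rw [mul_assoc]; exact mul_le_mul_of_nonneg_left h2 hCu0
    have h4 : (5 * Cu + 1) * δ ≤ c * C2 ^ 2 * δ := mul_le_mul_of_nonneg_right hC2 hδ.le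
    rw [h1]
    linarith
  refine ⟨1, one_pos, ?_⟩
  intro h hh _
  obtain ⟨κm, rm, hκm, hmove⟩ := hMOVE R P S f φ hL (CT + τ + 1) (δ / 4) (by positivity)
  set K : ℝ := Cn * Real.exp Ce * (3 * C2) * h * a ^ (2 / 5 : ℝ) with hK
  have hUT : (𝒰 : Filter ℕ) ≤ atTop := Nat.hyperfilter_le_atTop
  have hclaim : ∀ κ : ℝ, 0 < κ → κ ≤ κm → κ ≤ τ → ∀ ε : ℝ, 0 < ε →
      (∫ z in Metric.closedBall (z₀ v₂) h, f v₂ z)
        ≤ (∫ z in Metric.closedBall (z₀ v₂ + u) (h + κ), f v₂ z) + (K + ε) := by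
    intro κ hκ hκm' hκτ ε hε
    obtain ⟨cP, -, hP⟩ := hPLC R P S κ rm hκ
    have hW1 := (hWKC R P S v₂ (f v₂) (φ v₂) (hL v₂) (Metric.closedBall (z₀ v₂) h)
      (Metric.closedBall (z₀ v₂) h) Metric.isBounded_closedBall measurableSet_closedBall
      (frontier_ball _ hh) Metric.isBounded_closedBall measurableSet_closedBall
      (frontier_ball _ hh)).1
    have hW2 := (hWKC R P S v₂ (f v₂) (φ v₂) (hL v₂) (Metric.closedBall (z₀ v₂ + u) (h + κ))
      (Metric.closedBall (z₀ v₂) h) Metric.isBounded_closedBall measurableSet_closedBall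
      (frontier_ball _ (by positivity)) Metric.isBounded_closedBall measurableSet_closedBall
      (frontier_ball _ hh)).1
    have hev : ∀ᶠ l in atTop, Cn ≤ ε / 4 * S.n l := by
      filter_upwards [S.card.eventually_ge_atTop (Cn / (ε / 4))] with l hl
      rw [div_le_iff₀ (by positivity)] at hl
      have : ((S.A l).card : ℝ) = S.n l := rfl
      rw [this] at hl
      linarith
    refine le_of_tendsto_of_tendsto hW1 (hW2.add_const (K + ε)) ?_
    filter_upwards [hmove, hUT hP, hUT (hlam.mem (δ / 4) (by positivity)),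
      hUT (hlam.few (ε / 4) (by positivity)), hUT (hCT (ε / 4) (by positivity)), hUT hev]
      with l h1 h2 h3 h4 h5 h6
    have hn := S.n_pos l
    have hcount := count_ball S l (T := CT) (h := h) (τ := τ) (lam := lam l) he1 i₀ z₀ u hκ (by
      intro σ hσ
      have hσa : |σ| = 1 := by rcases hσ with h | h <;> rw [h] <;> norm_num
      obtain ⟨B, ⟨ω, hωB⟩, -, hB⟩ := h2 (disp v₁ v₂ i₀ (-(σ * τ)) u) 0
      obtain ⟨hω1, hω2⟩ := hB ω hωB
      refine ⟨ω, ?_, ?_, ?_⟩
      · have := hω1 v₁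
        rwa [disp_v₁ hne] at this
      · have := hω1 v₂
        rwa [disp_v₂] at this
      · intro x hx hex hPh hσx
        apply h3
        have h7 := h1 x ω (disp v₁ v₂ i₀ (-(σ * τ)) u) (by linarith)
          (by
            intro v
            have h8 := norm_disp hne i₀ (-(σ * τ)) u v
            have h9 : |(-(σ * τ))| = τ := by
              rw [abs_neg, abs_mul, hσa, one_mul, abs_of_pos hτ]
            rw [h9] at h8
            linarith)
          (fun v => le_trans (hω1 v) hκm') hω2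
        have h8 := drop φ z₀ hne he1 i₀ hτ hσ hc hlow hupm u hu (S.X l x)
          (fun v => le_trans (S.norm_X_le l x v) (Real.exp_le_exp.2 hex)) hσx
        have h9 := (abs_le.1 h7).2
        linarith)
    have hstrip : (((S.A l).filter fun x => S.ex l x ≤ CT ∧ ‖S.X l x v₂ - z₀ v₂‖ ≤ h ∧
          ‖S.X l x v₁ - z₀ v₁‖ ≤ τ + 2 * κ).card : ℝ)
        ≤ Cn * (1 + S.n l * Real.exp Ce * (3 * τ) * h) := by
      have h7 := hCn (fun v => (if v = v₁ then 3 * τ else if v = v₂ then h else Real.exp CT)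
          * S.s l v) (fun t => S.j l t + r t)
        (by
          intro v
          apply mul_pos _ (S.s_pos l v)
          split_ifs
          · positivity
          · exact hh
          · exact Real.exp_pos _)
        (fun v => S.s l v • (if v = v₁ ∨ v = v₂ then z₀ v else 0)) 0
        ((S.A l).filter fun x => S.ex l x ≤ CT ∧ ‖S.X l x v₂ - z₀ v₂‖ ≤ h ∧
          ‖S.X l x v₁ - z₀ v₁‖ ≤ τ + 2 * κ)
        (by
          intro x hx
          rw [Finset.mem_filter] at hx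
          obtain ⟨_, hx1, hx2, hx3⟩ := hx
          constructor
          · intro v
            rw [S.norm_em_sub, mul_comm]
            apply mul_le_mul_of_nonneg_right _ (S.s_pos l v).le
            by_cases h8 : v = v₁
            · subst h8
              rw [if_pos (Or.inl rfl), if_pos rfl]
              linarith
            · by_cases h9 : v = v₂
              · subst h9
                rw [if_pos (Or.inr rfl), if_neg h8, if_pos rfl]
                exact hx2
              · rw [if_neg (by tauto), if_neg h8, if_neg h9, sub_zero]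
                exact le_trans (S.norm_X_le l x v) (Real.exp_le_exp.2 hx1)
          · intro t
            by_cases hx0 : x = 0
            · exact Or.inl hx0
            · right
              rw [sub_zero]
              have h8 := S.lev_le_ex l hx0 t
              have hlq := S.good.lq_pos t
              have h9 : ((max (P.lev t x - S.j l t) 0 : ℤ) : ℝ) ≤ CT / P.lq t := by
                rw [le_div_iff₀ hlq]; linarith
              have h10 : (max (P.lev t x - S.j l t) 0 : ℤ) ≤ r t := by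
                have := le_trans h9 (Int.le_ceil (CT / P.lq t))
                exact_mod_cast this
              have h11 := le_max_left (P.lev t x - S.j l t) 0
              omega)
      refine le_trans h7 (mul_le_mul_of_nonneg_left ?_ hCn0)
      have h8 := deg_strip S l hne he1 he2 hCT0 (show 0 < 3 * τ by positivity) hh r
      have h9 := Real.exp_le_exp.2 h8
      rw [← hCe, Real.exp_add, Real.exp_add, Real.exp_add, Real.exp_log hn,
        Real.exp_log (show 0 < 3 * τ by positivity), Real.exp_log hh] at h9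
      linarith
    have hCTc : (((S.A l).filter fun x => CT ≤ S.ex l x).card : ℝ) ≤ ε / 4 * S.n l := by
      refine le_trans ?_ h5
      have h7 : ∀ x ∈ (S.A l).filter fun x => CT ≤ S.ex l x, (1 : ℝ) ≤ S.ex l x := by
        intro x hx
        have := (Finset.mem_filter.1 hx).2
        linarith
      have h8 := Finset.sum_le_sum h7
      rw [Finset.sum_const, nsmul_eq_mul, mul_one] at h8
      exact h8
    have hcount' : (((S.A l).filter fun x => S.X l x v₂ ∈ Metric.closedBall (z₀ v₂) h).card : ℝ)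
        ≤ (((S.A l).filter fun x =>
            S.X l x v₂ ∈ Metric.closedBall (z₀ v₂ + u) (h + κ)).card : ℝ)
        + (((S.A l).filter fun x => S.ex l x ≤ CT ∧ ‖S.X l x v₂ - z₀ v₂‖ ≤ h ∧
          ‖S.X l x v₁ - z₀ v₁‖ ≤ τ + 2 * κ).card : ℝ)
        + (((S.A l).filter fun x => CT ≤ S.ex l x).card : ℝ)
        + (((S.A l).filter fun x => lam l < S.Ph l x).card : ℝ) := by exact_mod_cast hcount
    rw [div_le_iff₀ hn, add_mul, div_mul_cancel₀ _ hn.ne']
    have hKeq : K * S.n l = Cn * (S.n l * Real.exp Ce * (3 * τ) * h) := by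
      rw [hK, hτd]; ring
    linarith
  -- the limit
  have hint : ∀ κ : ℝ, IntegrableOn (f v₂) (Metric.closedBall (z₀ v₂ + u) (h + κ)) := by
    intro κ
    obtain ⟨Bf, hBf⟩ := hd.bdd
    apply Measure.integrableOn_of_bounded (M := Bf)
    · exact (measure_closedBall_lt_top).ne
    · exact hd.meas.aestronglyMeasurable
    · apply Filter.Eventually.of_forall
      intro z
      rw [Real.norm_eq_abs, abs_of_nonneg (hd.nonneg z)]
      exact hBf z
  have hκ0 : 0 < min κm τ := lt_min hκm hτ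
  have hlim := MeasureTheory.tendsto_setIntegral_of_antitone (μ := volume) (f := f v₂)
    (s := fun m : ℕ => Metric.closedBall (z₀ v₂ + u) (h + min κm τ / ((m : ℝ) + 1)))
    (fun m => measurableSet_closedBall)
    (by
      intro m m' hmm
      apply Metric.closedBall_subset_closedBall
      have h1 : (m : ℝ) ≤ m' := by exact_mod_cast hmm
      have h2 : min κm τ / ((m' : ℝ) + 1) ≤ min κm τ / ((m : ℝ) + 1) := by
        apply div_le_div_of_nonneg_left hκ0.le (by positivity) (by linarith)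
      linarith)
    ⟨0, hint _⟩
  have hinter : ⋂ m : ℕ, Metric.closedBall (z₀ v₂ + u) (h + min κm τ / ((m : ℝ) + 1))
      = Metric.closedBall (z₀ v₂ + u) h := by
    ext z
    simp only [Set.mem_iInter, Metric.mem_closedBall]
    constructor
    · intro h1
      have h2 : Tendsto (fun m : ℕ => h + min κm τ / ((m : ℝ) + 1)) atTop (𝓝 (h + 0)) := by
        apply Tendsto.const_add
        have := tendsto_one_div_add_atTop_nhds_zero_nat (𝕜 := ℝ)
        have h3 := this.const_mul (min κm τ)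
        rw [mul_zero] at h3
        refine h3.congr fun m => ?_
        ring
      rw [add_zero] at h2
      exact ge_of_tendsto' h2 h1
    · intro h1 m
      have : 0 ≤ min κm τ / ((m : ℝ) + 1) := by positivity
      linarith
  rw [hinter] at hlim
  have hfin : (∫ z in Metric.closedBall (z₀ v₂) h, f v₂ z)
      ≤ (∫ z in Metric.closedBall (z₀ v₂ + u) h, f v₂ z) + K := by
    apply le_of_forall_pos_le_add
    intro ε hε
    have h1 := hlim.add_const (K + ε)
    refine ge_of_tendsto' h1 ?_ |>.trans (by linarith)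
    intro m
    have h2 : min κm τ / ((m : ℝ) + 1) ≤ min κm τ := by
      apply div_le_self hκ0.le
      have : (0 : ℝ) ≤ m := Nat.cast_nonneg m
      linarith
    exact hclaim _ (by positivity) (le_trans h2 (min_le_left _ _))
      (le_trans h2 (min_le_right _ _)) ε hε
  linarith

end Pool.NS
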